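import Pool.Agent.H365.TF.Stm
import Pool.Agent.H643.LS.UNION

/-!
# SEMI: property (T) for `V ⋊ L`, `V` boundedly generated by commutators with few elements
-/

set_option autoImplicit false

namespace Pool.Agent.H365.TF

open Finset
open Pool.Agent.W661.RC (HasT)
open Pool.Agent.H643.LS (kaz exists_fixed rep_mul rep_one rep_norm)

noncomputable section

namespace Semi

variable {G : Type} [Group G] {H : Type} [NormedAddCommGroup H] [InnerProductSpace ℂ H]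
  [CompleteSpace H]

/-- the displacement of a product -/
theorem disp_mul (π : G →* unitary (H →L[ℂ] H)) (a b : G) (w : H) :
    ‖(π (a * b) : H →L[ℂ] H) w - w‖ ≤
      ‖(π a : H →L[ℂ] H) w - w‖ + ‖(π b : H →L[ℂ] H) w - w‖ := by
  have h1 : (π (a * b) : H →L[ℂ] H) w - w =
      (π a : H →L[ℂ] H) ((π b : H →L[ℂ] H) w - w) + ((π a : H →L[ℂ] H) w - w) := by
    rw [rep_mul, map_sub]
    abel
  rw [h1]
  refine (norm_add_le _ _).trans ?_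
  rw [rep_norm]
  linarith

/-- the displacement of an inverse -/
theorem disp_inv (π : G →* unitary (H →L[ℂ] H)) (a : G) (w : H) :
    ‖(π a⁻¹ : H →L[ℂ] H) w - w‖ = ‖(π a : H →L[ℂ] H) w - w‖ := by
  have h1 : (π a : H →L[ℂ] H) ((π a⁻¹ : H →L[ℂ] H) w - w) = -((π a : H →L[ℂ] H) w - w) := by
    rw [map_sub, ← rep_mul, mul_inv_cancel, rep_one]
    abel
  rw [← rep_norm π a, h1, norm_neg]

/-- the displacement of a conjugate by an element fixing the vector -/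
theorem disp_conj (π : G →* unitary (H →L[ℂ] H)) (l a : G) (w : H)
    (hl : ∀ n : G, n = l ∨ n = l⁻¹ → (π n : H →L[ℂ] H) w = w) :
    ‖(π (l * a * l⁻¹) : H →L[ℂ] H) w - w‖ = ‖(π a : H →L[ℂ] H) w - w‖ := by
  have h1 : (π (l * a * l⁻¹) : H →L[ℂ] H) w - w =
      (π l : H →L[ℂ] H) ((π a : H →L[ℂ] H) w - w) := by
    rw [rep_mul, hl l⁻¹ (Or.inr rfl), rep_mul, map_sub, hl l (Or.inl rfl)]
  rw [h1, rep_norm]

end Semi

open Semi in
theorem t_SEMI : S_SEMI := by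
  classical
  intro P _ L V Y C hL hLV hYV hC H _ _ _ π hπ
  have hVs : V ≤ L ⊔ V := le_sup_right
  have hLs : L ≤ L ⊔ V := le_sup_left
  set jL : L →* (L ⊔ V : Subgroup P) := Subgroup.inclusion hLs with hjL
  obtain ⟨δ, hδ⟩ : ∃ δ : ℝ, δ = 1 / (100 * ((C : ℝ) + 1)) := ⟨_, rfl⟩
  have hC0 : (0 : ℝ) ≤ C := Nat.cast_nonneg C
  have hδ0 : 0 < δ := by
    rw [hδ]
    positivity
  have hδC : 100 * (C * δ) + 100 * δ = 1 := by
    rw [hδ]
    field_simp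
  have hCδ : 0 ≤ C * δ := mul_nonneg hC0 hδ0.le
  obtain ⟨S1, ε1, hε1, h1⟩ := kaz jL hL δ hδ0
  obtain ⟨v, hv1, hv2⟩ := hπ (S1 ∪ Y.attach.image (fun y : {y // y ∈ Y} =>
    (⟨(y : P), hVs (hYV _ y.2)⟩ : (L ⊔ V : Subgroup P)))) (min ε1 δ) (lt_min hε1 hδ0)
  obtain ⟨w, hw, hwv⟩ := h1 H π v fun g hg =>
    (hv2 g (mem_union_left _ hg)).trans_le (min_le_left _ _)
  have hwn : 1 - δ ≤ ‖w‖ := by
    have h3 : ‖v‖ ≤ ‖v - w‖ + ‖w‖ := by
      have := norm_add_le (v - w) w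
      rwa [sub_add_cancel] at this
    rw [hv1] at h3
    linarith
  have hwL : ∀ (l : P) (hl : l ∈ L), (π ⟨l, hLs hl⟩ : H →L[ℂ] H) w = w := fun l hl => hw ⟨l, hl⟩
  have hwY : ∀ (y : P) (hy : y ∈ Y),
      ‖(π ⟨y, hVs (hYV _ hy)⟩ : H →L[ℂ] H) w - w‖ ≤ 3 * δ := by
    intro y hy
    have h3 := (hv2 ⟨y, hVs (hYV _ hy)⟩ (mem_union_right _ (mem_image.2
      ⟨⟨y, hy⟩, mem_attach _ _, rfl⟩))).trans_le (min_le_right _ _)
    have h4 : (π ⟨y, hVs (hYV _ hy)⟩ : H →L[ℂ] H) w - w =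
        ((π ⟨y, hVs (hYV _ hy)⟩ : H →L[ℂ] H) v - v) + (v - w) -
          (π ⟨y, hVs (hYV _ hy)⟩ : H →L[ℂ] H) (v - w) := by
      rw [map_sub]
      abel
    rw [h4]
    refine (norm_sub_le _ _).trans ?_
    rw [rep_norm]
    have h5 := norm_add_le ((π ⟨y, hVs (hYV _ hy)⟩ : H →L[ℂ] H) v - v) (v - w)
    linarith
  have hcomm : ∀ u : P, (∃ l ∈ L, ∃ y ∈ Y, u = l * y * l⁻¹ * y⁻¹) →
      ∃ hu : u ∈ L ⊔ V, ‖(π ⟨u, hu⟩ : H →L[ℂ] H) w - w‖ ≤ 6 * δ := by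
    rintro u ⟨l, hl, y, hy, rfl⟩
    have hl' := hLs hl
    have hy' := hVs (hYV _ hy)
    refine ⟨(L ⊔ V).mul_mem ((L ⊔ V).mul_mem ((L ⊔ V).mul_mem hl' hy') ((L ⊔ V).inv_mem hl'))
      ((L ⊔ V).inv_mem hy'), ?_⟩
    have h3 := disp_mul π ((⟨l, hl'⟩ : (L ⊔ V : Subgroup P)) * ⟨y, hy'⟩ * (⟨l, hl'⟩)⁻¹)
      (⟨y, hy'⟩)⁻¹ w
    rw [disp_inv, disp_conj π _ _ w (by
      rintro n (rfl | rfl)
      · exact hwL l hl
      · exact hwL l⁻¹ (L.inv_mem hl))] at h3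
    have h4 := hwY y hy
    refine le_trans h3 ?_
    linarith
  have hlist : ∀ ls : List P, (∀ u ∈ ls, ∃ l ∈ L, ∃ y ∈ Y, u = l * y * l⁻¹ * y⁻¹) →
      ∃ hu : ls.prod ∈ L ⊔ V, ‖(π ⟨ls.prod, hu⟩ : H →L[ℂ] H) w - w‖ ≤ 6 * δ * ls.length := by
    intro ls
    induction ls with
    | nil =>
      intro _
      refine ⟨(L ⊔ V).one_mem, ?_⟩
      have h3 : (π ⟨1, (L ⊔ V).one_mem⟩ : H →L[ℂ] H) w = w := rep_one π w
      show ‖(π ⟨1, (L ⊔ V).one_mem⟩ : H →L[ℂ] H) w - w‖ ≤ _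
      rw [h3]
      simp
    | cons u ls ih =>
      intro h
      obtain ⟨hu, hu2⟩ := hcomm u (h u List.mem_cons_self)
      obtain ⟨hp, hp2⟩ := ih fun x hx => h x (List.mem_cons_of_mem _ hx)
      have hup : (u :: ls).prod ∈ L ⊔ V := by
        rw [List.prod_cons]
        exact (L ⊔ V).mul_mem hu hp
      refine ⟨hup, ?_⟩
      have h3 := disp_mul π (⟨u, hu⟩ : (L ⊔ V : Subgroup P)) ⟨ls.prod, hp⟩ w
      have h4 : (⟨(u :: ls).prod, hup⟩ : (L ⊔ V : Subgroup P)) = ⟨u, hu⟩ * ⟨ls.prod, hp⟩ :=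
        Subtype.ext List.prod_cons
      rw [h4]
      refine h3.trans ?_
      rw [List.length_cons]
      push_cast
      linarith
  have hV : ∀ (x : P) (hx : x ∈ V), ‖(π ⟨x, hVs hx⟩ : H →L[ℂ] H) w - w‖ ≤ 6 * (C * δ) := by
    intro x hx
    obtain ⟨ls, hlen, hprod, hls⟩ := hC x hx
    obtain ⟨hu, hu2⟩ := hlist ls hls
    have h4 : (⟨x, hVs hx⟩ : (L ⊔ V : Subgroup P)) = ⟨ls.prod, hu⟩ := Subtype.ext hprod.symm
    rw [h4]
    refine hu2.trans ?_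
    have h5 : (ls.length : ℝ) ≤ C := by exact_mod_cast hlen
    nlinarith
  let T : Subgroup P :=
    { carrier := {x | ∃ y ∈ V, ∃ q ∈ L, x = y * q}
      mul_mem' := by
        rintro _ _ ⟨y, hy, q, hq, rfl⟩ ⟨y', hy', q', hq', rfl⟩
        exact ⟨y * (q * y' * q⁻¹), V.mul_mem hy (hLV q hq y' hy'), q * q', L.mul_mem hq hq',
          by group⟩
      one_mem' := ⟨1, V.one_mem, 1, L.one_mem, by simp⟩
      inv_mem' := by
        rintro _ ⟨y, hy, q, hq, rfl⟩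
        refine ⟨q⁻¹ * y⁻¹ * (q⁻¹)⁻¹, hLV _ (L.inv_mem hq) _ (V.inv_mem hy), q⁻¹, L.inv_mem hq, ?_⟩
        group }
  have hT : L ⊔ V ≤ T := by
    refine sup_le ?_ ?_
    · intro q hq
      exact ⟨1, V.one_mem, q, hq, by simp⟩
    · intro k hk
      exact ⟨k, hk, 1, L.one_mem, by simp⟩
  refine exists_fixed π w (6 * (C * δ)) (by linarith) ?_
  intro g
  obtain ⟨y, hy, q, hq, hgy⟩ := hT g.2
  have hg : g = (⟨y, hVs hy⟩ : (L ⊔ V : Subgroup P)) * ⟨q, hLs hq⟩ := Subtype.ext hgy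
  rw [hg, rep_mul, hwL q hq]
  exact hV y hy

end

end Pool.Agent.H365.TF
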